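import Pool.Agent.H20.K3.Anti

/-!
# Homologically trivial cycles and Abel-Jacobi maps

`V` is the category of smooth projective irreducible varieties over an algebraically closed subfield of the
complex numbers, `A` the Chow rings with rational coefficients.
-/

open CategoryTheory CategoryTheory.Limits

universe u v w

namespace Pool.Agent.H8.AJ

open Pool.Agent.H2.OC Pool.Agent.H20.K3

variable {V : Type u} [Category.{v} V] [HasFiniteProducts V]

/-- Homologically trivial cycle classes and Jacobians, with rational coefficients. -/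
structure Jacobians (A : Rings.{u, v, w} V) where
  /-- the homologically trivial classes -/
  hom : ∀ X, Ideal (A.R X)
  /-- the sum of the intermediate Jacobians of `X`, tensored with the rational numbers -/
  J : V → Type w
  [grp : ∀ X, AddCommGroup (J X)]
  /-- classes of cycles act through their cohomology classes -/
  [mod : ∀ X, Module (A.R X) (J X)]
  /-- the Abel-Jacobi map -/
  Φ : ∀ X, hom X →ₗ[A.R X] J X

attribute [instance] Jacobians.grp Jacobians.mod

variable {A : Rings.{u, v, w} V}

/-- The class `a` is homologically trivial. -/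
def Hom (J : Jacobians A) {X : V} (a : A.R X) : Prop := a ∈ J.hom X

/-- The Abel-Jacobi invariant of the homologically trivial class `a`. -/
def inv (J : Jacobians A) {X : V} {a : A.R X} (h : Hom J a) : J.J X := J.Φ X ⟨a, h⟩

/-- The Abel-Jacobi maps are compatible with pull-backs and push-forwards. -/
structure AbelJacobi (A : Rings.{u, v, w} V) extends Jacobians A where
  hom_pull : ∀ {X Y : V} (f : X ⟶ Y) {a : A.R Y}, Hom toJacobians a → Hom toJacobians (pl A f a)
  hom_push : ∀ {X Y : V} (f : X ⟶ Y) {a : A.R X}, Hom toJacobians a → Hom toJacobians (ps A f a)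
  pull : ∀ {X Y : V}, (X ⟶ Y) → (J Y →+ J X)
  push : ∀ {X Y : V}, (X ⟶ Y) → (J X →+ J Y)
  inv_pull : ∀ {X Y : V} (f : X ⟶ Y) {a : A.R Y} (h : Hom toJacobians a),
    inv toJacobians (hom_pull f h) = pull f (inv toJacobians h)
  inv_push : ∀ {X Y : V} (f : X ⟶ Y) {a : A.R X} (h : Hom toJacobians a),
    inv toJacobians (hom_push f h) = push f (inv toJacobians h)

/-- The class `a` is in the kernel of the Abel-Jacobi map: it is homologically trivial and its Abel-Jacobi
invariant is zero. -/
def Ker (J : Jacobians A) {X : V} (a : A.R X) : Prop := ∃ h : Hom J a, inv J h = 0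

/-- The class `a` is of codimension `k`. -/
def Cod (G : Grading A) (k : ℕ) {X : V} (a : A.R X) : Prop := isIn (G.cod X k) a

/-- The known facts about homologically trivial cycles and Abel-Jacobi maps. -/
structure Facts (G : Grading A) (J : Jacobians A) : Prop where
  /-- there are no cycles of negative dimension -/
  top : ∀ {X : V} {k : ℕ} {a : A.R X}, G.dim X < k → Cod G k a → a = 0
  /-- homologically trivial classes are numerically trivial -/
  num : ∀ {X : V} {a : A.R X}, Hom J a → NumTrivial A a
  /-- numerically trivial divisors are homologically trivial, up to torsion (Matsusaka) -/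
  divisors : ∀ {X : V} {a : A.R X}, Cod G 1 a → NumTrivial A a → Hom J a
  /-- the Abel-Jacobi map of divisors is injective -/
  injective : ∀ {X : V} {a : A.R X}, Cod G 1 a → Ker J a → a = 0
  /-- if the first Betti number of the surface `S` is zero, then antisymmetrisation is zero on
  `H³ (S × S × Z)`, and so on the Jacobian -/
  anti : ∀ {S : V} (o : star V ⟶ S) (Z : V), G.dim S = 2 → Regular A S o →
    ∀ a : A.R (dp (dp S S) Z), Cod G 2 a → Hom J a → Ker J (na S o a)

/-- The Abel-Jacobi map is injective on the homologically trivial cycles of codimension `k` on `X`. -/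
def Injective (G : Grading A) (J : Jacobians A) (k : ℕ) (X : V) : Prop :=
  ∀ a : A.R X, Cod G k a → Ker J a → a = 0

variable {J : AbelJacobi A}

theorem Ker.pull {X Y : V} (f : X ⟶ Y) {a : A.R Y} (h : Ker J.toJacobians a) :
    Ker J.toJacobians (pl A f a) := by
  obtain ⟨h1, h2⟩ := h
  exact ⟨J.hom_pull f h1, by rw [J.inv_pull f h1, h2, map_zero]⟩

theorem Ker.push {X Y : V} (f : X ⟶ Y) {a : A.R X} (h : Ker J.toJacobians a) :
    Ker J.toJacobians (ps A f a) := by
  obtain ⟨h1, h2⟩ := h
  exact ⟨J.hom_push f h1, by rw [J.inv_push f h1, h2, map_zero]⟩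

theorem Ker.mul {J : Jacobians A} {X : V} (c : A.R X) {a : A.R X} (h : Ker J a) : Ker J (c * a) := by
  obtain ⟨h1, h2⟩ := h
  refine ⟨Ideal.mul_mem_left _ c h1, ?_⟩
  have h3 := (J.Φ X).map_smul c ⟨a, h1⟩
  have h4 : J.Φ X ⟨a, h1⟩ = 0 := h2
  rw [h4, smul_zero] at h3
  exact h3

theorem Ker.sub {J : Jacobians A} {X : V} {a b : A.R X} (h : Ker J a) (h' : Ker J b) :
    Ker J (a - b) := by
  obtain ⟨h1, h2⟩ := h
  obtain ⟨h3, h4⟩ := h'
  refine ⟨Ideal.sub_mem _ h1 h3, ?_⟩
  have h5 := (J.Φ X).map_sub ⟨a, h1⟩ ⟨b, h3⟩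
  have h6 : J.Φ X ⟨a, h1⟩ = 0 := h2
  have h7 : J.Φ X ⟨b, h3⟩ = 0 := h4
  rw [h6, h7, sub_zero] at h5
  exact h5

theorem Hom.pull {X Y : V} (f : X ⟶ Y) {a : A.R Y} (h : Hom J.toJacobians a) :
    Hom J.toJacobians (pl A f a) := J.hom_pull f h

theorem Hom.push {X Y : V} (f : X ⟶ Y) {a : A.R X} (h : Hom J.toJacobians a) :
    Hom J.toJacobians (ps A f a) := J.hom_push f h

theorem Hom.sub {J : Jacobians A} {X : V} {a b : A.R X} (h : Hom J a) (h' : Hom J b) :
    Hom J (a - b) := Ideal.sub_mem _ h h'

end Pool.Agent.H8.AJ
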