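import Pool.Agent.H8.AJ.Main
import Pool.Agent.H71.K3P.Cor

/-!
# Elliptic K3 surfaces over an algebraically closed field of characteristic zero: the link with zero-cycles

`KH.Pt F`: coordinates `(t0 : t1 : x : y)` over the field `F` of a point of the weighted projective space
`P(1,1,4,6)`, `KH.OnW a b P`: the point `P` lies on the surface `W` with the equation
`y^2 = x^3 + a(t0,t1) x + b(t0,t1)`, `KH.RatEq a b`: zero-cycles of `W × W` rationally equivalent to
zero.
-/

open CategoryTheory CategoryTheory.Limits

universe u v w

namespace Pool.Agent.H8.AJ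

open Pool.Agent.H2.OC Pool.Agent.H20.K3

variable {V : Type u} [Category.{v} V] [HasFiniteProducts V]

/-- The form `a` over the extension field `F`. -/
noncomputable abbrev ext {k : Type} [Field k] (F : Type) [Field F] [Algebra k F]
    (a : MvPolynomial (Fin 2) k) : MvPolynomial (Fin 2) F := MvPolynomial.map (algebraMap k F) a

/-- The two projections `S × S → S` and the constant map with value `o`. -/
noncomputable def mor (S : V) (o : star V ⟶ S) : Fin 3 → (dp S S ⟶ S) :=
  ![p1 S S, p2 S S, const _ o]

/-- The forms `a`, `b` of degrees `8` and `12` define an elliptic K3 surface, possibly with rational double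
points, which has at least two singular fibres. -/
def Forms {k : Type} [Field k] (a b : MvPolynomial (Fin 2) k) : Prop :=
  a.IsHomogeneous 8 ∧ b.IsHomogeneous 12 ∧ H67.KH.disc a b ≠ 0 ∧
    ∃ u0 u1 v0 v1 : k, u0 * v1 ≠ u1 * v0 ∧ H67.KH.ev (H67.KH.disc a b) u0 u1 = 0 ∧
      H67.KH.ev (H67.KH.disc a b) v0 v1 = 0

/-- The surface `S` over the field `k` has an elliptic fibration over the projective line, of K3 type.

Let `W` be the Weierstrass model `y^2 = x^3 + a x + b` in `P(1,1,4,6)` of the Jacobian fibration and `φ` the
rational map from `S` to `W` which maps `p` to `d p - D|F` (`D` a curve of degree `d` over the line, `F` the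
fibre through `p`); if there is a section, `S` is a resolution of singularities of `W` and `φ` can be
taken to be this morphism. For K3 surfaces the map of zero-cycles `(φ × φ)_*` from `S × S` to `W × W` is
injective, with rational coefficients, over every algebraically closed field: `φ^* φ_* p = d^2 p + const`. -/
structure Elliptic (k : Type) [Field k] {A : Rings.{u, v, w} V} (G : Grading A) (S : V) where
  dim_S : G.dim S = 2
  /-- a point of `S` in the domain of `φ` -/
  o : star V ⟶ S
  /-- the first Betti number of `S` is zero -/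
  regular : Regular A S o
  a : MvPolynomial (Fin 2) k
  b : MvPolynomial (Fin 2) k
  forms : Forms a b
  /-- an algebraic closure of the function field of `S × S` -/
  K : Type
  [field : Field K]
  [algebra : Algebra k K]
  [closed : IsAlgClosed K]
  /-- the images under `φ` of the points of `S` over `K` which are given by the two projections
  `S × S → S` and by `o` -/
  val : Fin 3 → H67.KH.Pt K
  val_on : ∀ i, H67.KH.OnW (ext K a) (ext K b) (val i)
  /-- injectivity of `(φ × φ)_*` and spreading out (Bloch, Srinivas): if a multiple of a combination of these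
  points of `S × S` is rationally equivalent to zero, then the combination of the graphs, a cycle on
  `(S × S) × (S × S)`, is supported on `D × (S × S)` for a divisor `D` of `S × S` -/
  spread : ∀ (c : Fin 3 → Fin 3 → ℤ) (N : ℕ), 0 < N →
    N • ∑ i, ∑ j, c i j • H67.KH.pt (val i) (val j) ∈ H67.KH.RatEq (ext K a) (ext K b) →
    ∃ (n : ℕ) (Y : Fin n → V) (i : ∀ k, Y k ⟶ dp S S) (Γ : ∀ k, A.R (dp (Y k) (dp S S))),
      (∀ k, G.dim (Y k) = 3) ∧ (∀ k, Γ k ∈ G.cod _ 3) ∧
        ∑ i, ∑ j, (c i j : ℚ) • im2 A (𝟙 (dp S S)) (lft (mor S o i) (mor S o j))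
          = ∑ k, ps A (mp (i k) (𝟙 (dp S S))) (Γ k)

/-- The variety `X` is the target of a dominant rational map `ψ` from `W × W`, with `ψ (P, Q) = ψ (Q, -P)`,
for the surface `W` in `P(1,1,4,6)` with the equation `y^2 = x^3 + a x + b`. Example: `X` is a resolution of
singularities of the quotient of `W × W` by the group of order four generated by the automorphism which maps
`(P, Q)` to `(Q, -P)`. -/
structure Quotient (k : Type) [Field k] {A : Rings.{u, v, w} V} (G : Grading A) (X : V) where
  a : MvPolynomial (Fin 2) k
  b : MvPolynomial (Fin 2) k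
  forms : Forms a b
  /-- an algebraic closure of the function field of `W × W` -/
  K : Type
  [field : Field K]
  [algebra : Algebra k K]
  [closed : IsAlgClosed K]
  /-- the coordinates of the generic point of `W × W` -/
  P : H67.KH.Pt K
  Q : H67.KH.Pt K
  on_P : H67.KH.OnW (ext K a) (ext K b) P
  on_Q : H67.KH.OnW (ext K a) (ext K b) Q
  /-- push-forward under `ψ` and spreading out (Bloch, Srinivas): if a multiple of the difference of the orbit
  of the generic point of `W × W` and of the constant orbit `(o, o)` is rationally equivalent to zero, then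
  the generic point of `X` is rationally equivalent to a constant point, up to torsion -/
  spread : ∀ N : ℕ, 0 < N →
    N • (H67.KH.pt P Q + H67.KH.pt Q P.neg + H67.KH.pt P.neg Q.neg + H67.KH.pt Q.neg P
      - 4 • H67.KH.pt (H67.KH.o K) (H67.KH.o K)) ∈ H67.KH.RatEq (ext K a) (ext K b) → PointLike G X

attribute [instance] Elliptic.field Elliptic.algebra Elliptic.closed
attribute [instance] Quotient.field Quotient.algebra Quotient.closed

variable {k : Type} [Field k]

theorem ev_ext {F : Type} [Field F] [Algebra k F] (c : MvPolynomial (Fin 2) k) (u v : k) :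
    H67.KH.ev (ext F c) (algebraMap k F u) (algebraMap k F v) = algebraMap k F (H67.KH.ev c u v) := by
  rw [H67.KH.ev, H67.KH.ev, MvPolynomial.aeval_map_algebraMap]
  have h : ![algebraMap k F u, algebraMap k F v] = fun i => algebraMap k F (![u, v] i) := by
    ext i
    fin_cases i <;> rfl
  rw [h]
  exact MvPolynomial.aeval_algebraMap_apply _ _ _

theorem disc_ext {F : Type} [Field F] [Algebra k F] (a b : MvPolynomial (Fin 2) k) :
    H67.KH.disc (ext F a) (ext F b) = ext F (H67.KH.disc a b) := by
  simp only [H67.KH.disc, ext, map_sub, map_mul, map_neg, map_pow, map_ofNat]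

theorem Forms.ext {F : Type} [Field F] [Algebra k F] {a b : MvPolynomial (Fin 2) k} (h : Forms a b) :
    Forms (AJ.ext F a) (AJ.ext F b) := by
  obtain ⟨ha, hb, hD, u0, u1, v0, v1, huv, hu, hv⟩ := h
  have hinj : Function.Injective (MvPolynomial.map (algebraMap k F) (σ := Fin 2)) :=
    MvPolynomial.map_injective _ (algebraMap k F).injective
  refine ⟨ha.map _, hb.map _, ?_, algebraMap k F u0, algebraMap k F u1, algebraMap k F v0,
    algebraMap k F v1, ?_, ?_, ?_⟩
  · rw [disc_ext]
    intro h0
    exact hD (hinj (h0.trans (map_zero _).symm))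
  · rw [← map_mul, ← map_mul]
    exact fun h0 => huv ((algebraMap k F).injective h0)
  · rw [disc_ext, ev_ext, hu, map_zero]
  · rw [disc_ext, ev_ext, hv, map_zero]

variable {A : Rings.{u, v, w} V} {G : Grading A}

/-- Voisin's conjecture (`H67.KH.main`) and spreading out: the class `anti` is supported on a
divisor. -/
theorem Elliptic.supported [CharZero k] {S : V} (E : Elliptic k G S) : Supported S E.o G := by
  have _ : CharZero E.K := charZero_of_injective_algebraMap (algebraMap k E.K).injective
  obtain ⟨ha, hb, hD, u0, u1, v0, v1, huv, hu, hv⟩ := E.forms.ext (F := E.K)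
  have hX : G.dim (dp S S) = 4 := by rw [G.dim_dp, E.dim_S]
  have h := H67.KH.main ha hb hD huv hu hv (E.val_on 0) (E.val_on 2) (E.val_on 1) (E.val_on 2)
  let c : Fin 3 → Fin 3 → ℤ := ![![0, 1, -1], ![-1, 0, 1], ![1, -1, 0]]
  obtain ⟨n, Y, i, Γ, h1, h2, h3⟩ := E.spread c 576 (by norm_num) (by
    convert h using 2
    simp only [Fin.sum_univ_three, c, H67.KH.prod]
    simp only [Matrix.cons_val_zero, Matrix.cons_val_one, Matrix.cons_val, one_smul, neg_smul,
      zero_smul, zero_add, add_zero]
    abel)
  refine ⟨n, Y, i, Γ, fun k => ?_, fun k => ?_, ?_⟩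
  · rw [h1 k, hX]
  · rw [h1 k]
    exact h2 k
  · rw [← h3]
    simp only [Fin.sum_univ_three, c, mor]
    simp only [Matrix.cons_val_zero, Matrix.cons_val_one, Matrix.cons_val]
    have e1 : lft (p1 S S) (p2 S S) = 𝟙 (dp S S) := by apply dp_ext <;> simp
    have e2 : lft (const _ E.o) (p1 S S) = o2 S E.o ≫ sw S := by
      apply dp_ext <;> simp [o2, sw]
    have e3 : lft (p2 S S) (const _ E.o) = o1 S E.o ≫ sw S := by
      apply dp_ext <;> simp [o1, sw]
    rw [e1, e2, e3, anti, gr, gr, gr, gr, gr, gr, o1, o2, sw]
    push_cast
    module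

/-- The quotient by the group of order four (`H71.K3P.orbit`). -/
theorem Quotient.pointLike [CharZero k] {X : V} (E : Quotient k G X) : PointLike G X := by
  have _ : CharZero E.K := charZero_of_injective_algebraMap (algebraMap k E.K).injective
  obtain ⟨ha, hb, hD, u0, u1, v0, v1, huv, hu, hv⟩ := E.forms.ext (F := E.K)
  exact E.spread 288 (by norm_num) (H71.K3P.orbit ha hb hD huv hu hv E.on_P E.on_Q)

end Pool.Agent.H8.AJ
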