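import Pool.Agent.H8.AJ.Defs

/-!
# Cycles of codimension two on `S × S × Z` and on `X × Z`
-/

open CategoryTheory CategoryTheory.Limits

universe u v w

namespace Pool.Agent.H8.AJ

open Pool.Agent.H2.OC Pool.Agent.H20.K3

variable {V : Type u} [Category.{v} V] [HasFiniteProducts V]

/-- The point of `X` over the function field of `X` which is given by the generic point is rationally
equivalent to a constant point, up to torsion (so that all zero-cycles of degree zero on `X` are torsion,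
over all fields): the diagonal of `X` is the sum of `X × pt` and of a cycle supported on `D × X` for a
divisor `D` of `X`. -/
def PointLike {A : Rings.{u, v, w} V} (G : Grading A) (X : V) : Prop :=
  ∃ (n : ℕ) (Y : Fin n → V) (i : ∀ k, Y k ⟶ X) (Γ : ∀ k, A.R (dp (Y k) X)),
    (∀ k, G.dim (Y k) + 1 = G.dim X) ∧ (∀ k, Γ k ∈ G.cod _ (G.dim (Y k))) ∧
      gr A (𝟙 X) - gr A (const X (A.pt X)) = ∑ k, ps A (mp (i k) (𝟙 X)) (Γ k)

variable {A : Rings.{u, v, w} V} [Chow A] {G : Grading A} {J : AbelJacobi A}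

/-- The action of a class of codimension `dim Y` on `Y × X`, where `Y` is mapped to a divisor. -/
theorem tca_cod {Y X Z : V} (hY : G.dim Y + 1 = G.dim X) {Γ : A.R (dp Y X)}
    (hΓ : Γ ∈ G.cod _ (G.dim Y)) {a : A.R (dp X Z)} (ha : a ∈ G.cod _ 2) :
    tca Γ a ∈ G.cod (dp Y Z) 1 := by
  refine G.push _ (G.mul (G.pull _ hΓ) (G.pull _ ha)) ?_
  rw [G.dim_dp, G.dim_dp, G.dim_dp, ← hY]
  omega

omit [Chow A] in
theorem ker_tca {Y X Z : V} (c : A.R (dp Y X)) {a : A.R (dp X Z)} (h : Ker J.toJacobians a) :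
    Ker J.toJacobians (tca c a) :=
  ((h.pull _).mul _).push _

theorem tca_sub_gr [Chow2 A] {X Z : V} (f g : X ⟶ X) (a : A.R (dp X Z)) :
    tca (gr A f - gr A g) a = pl A (mp f (𝟙 Z)) a - pl A (mp g (𝟙 Z)) a := by
  rw [tca_sub_left, tca_gr, tca_gr]

/-- Cycles of codimension two on `X × Z`. -/
theorem injective_prod [Chow2 A] (hF : Facts G J.toJacobians) {X : V} (hX : PointLike G X) {Z : V}
    (hZ : Injective G J.toJacobians 2 Z) : Injective G J.toJacobians 2 (dp X Z) := by
  intro a ha hk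
  obtain ⟨n, Y, i, Γ, hY, hc, h⟩ := hX
  have h1 : tca (gr A (𝟙 X) - gr A (const X (A.pt X))) a = 0 := by
    rw [h, tca_sum_left]
    refine Finset.sum_eq_zero fun k _ => ?_
    rw [tca_push]
    have h2 : tca (Γ k) a = 0 := hF.injective (tca_cod (hY k) (hc k) ha) (ker_tca (Γ k) hk)
    rw [h2, ps_zero]
  rw [tca_sub_gr, pl_id_mp, sub_eq_zero] at h1
  have e : mp (const X (A.pt X)) (𝟙 Z) = p2 X Z ≫ lft (const Z (A.pt X)) (𝟙 Z) := by
    apply dp_ext <;> simp [comp_const, mp]
  rw [h1, e, Chow.pull_comp, hZ _ (G.pull _ ha) (hk.pull _), pl_zero]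

/-- Cycles of codimension two on `X`. -/
theorem injective_self [Chow2 A] (hF : Facts G J.toJacobians) {X : V} (hX : PointLike G X) :
    Injective G J.toJacobians 2 X := by
  intro a ha hk
  have h0 : Injective G J.toJacobians 2 (H2.OC.star V) := fun b hb _ => hF.top (by rw [G.dim_star]; omega) hb
  have h1 := injective_prod hF hX h0 (pl A (p1 X (H2.OC.star V)) a) (G.pull _ ha) (hk.pull _)
  have h2 : pl A (lft (𝟙 X) (toStar X)) (pl A (p1 X (H2.OC.star V)) a) = a := by
    rw [← Chow.pull_comp, lft_p1, pl_id]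
  rw [← h2, h1, pl_zero]

variable {S : V} {o : H2.OC.star V ⟶ S}

theorem na_cod {Z : V} {a : A.R (dp (dp S S) Z)} (ha : a ∈ G.cod _ 2) : na S o a ∈ G.cod _ 2 := by
  rw [na]
  exact Submodule.add_mem _ (Submodule.add_mem _ (Submodule.sub_mem _ (Submodule.sub_mem _
    (Submodule.sub_mem _ ha (G.pull _ ha)) (G.pull _ ha)) (G.pull _ ha)) (G.pull _ ha))
    (G.pull _ ha)

/-- Antisymmetrisations of classes in the kernel of the Abel-Jacobi map. -/
theorem na_ker [Chow2 A] (hF : Facts G J.toJacobians) (hS : Supported S o G) {Z : V} {a : A.R (dp (dp S S) Z)}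
    (ha : a ∈ G.cod _ 2) (hk : Ker J.toJacobians a) : na S o a = 0 := by
  obtain ⟨n, Y, i, Γ, hY, hc, h⟩ := hS
  rw [← tca_anti, h, tca_sum_left]
  refine Finset.sum_eq_zero fun k _ => ?_
  rw [tca_push]
  have h2 : tca (Γ k) a = 0 := hF.injective (tca_cod (hY k) (hc k) ha) (ker_tca (Γ k) hk)
  rw [h2, ps_zero]

/-- Antisymmetrisations of numerically trivial classes are homologically trivial. -/
theorem na_hom [Chow2 A] (hF : Facts G J.toJacobians) (hS : Supported S o G) {Z : V}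
    {a : A.R (dp (dp S S) Z)} (ha : a ∈ G.cod _ 2) (hn : NumTrivial A a) : Hom J.toJacobians (na S o a) := by
  obtain ⟨n, Y, i, Γ, hY, hc, h⟩ := hS
  rw [← tca_anti, h, tca_sum_left]
  refine Ideal.sum_mem _ fun k _ => ?_
  rw [tca_push]
  exact (hF.divisors (tca_cod (hY k) (hc k) ha) (num_tca _ hn)).push _

theorem ring_aux' {R : Type*} [Ring R] (a b s : R) (haa : a * a = a) (hbb : b * b = b)
    (hba : b * a = a * b) (hss : s * s = 1) (has : a * s = s * b) (hbs : b * s = s * a)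
    (hsab : s * (a * b) = a * b) :
    (1 - a - b - s + s * b + s * a) * (1 - a - b - s + s * b + s * a)
      = 2 * (1 - a - b - s + s * b + s * a) := by
  have e : 1 - a - b - s + s * b + s * a = (1 - s) * ((1 - a) * (1 - b)) := by
    have : (1 - s) * ((1 - a) * (1 - b)) = 1 - a - b - s + s * b + s * a
      + (a * b - s * (a * b)) := by noncomm_ring
    rw [this, hsab, sub_self, add_zero]
  have h1 : ((1 - a) * (1 - b)) * (1 - s) = (1 - s) * ((1 - a) * (1 - b)) := by
    have h2 : ((1 - a) * (1 - b)) * (1 - s) = 1 - a - b + a * b - s + a * s + b * s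
      - a * (b * s) := by noncomm_ring
    have h3 : (1 - s) * ((1 - a) * (1 - b)) = 1 - a - b + a * b - s + s * a + s * b
      - s * (a * b) := by noncomm_ring
    rw [h2, h3, has, hbs, ← mul_assoc a s a, has, mul_assoc, hba, hsab]
    abel
  have h4 : (1 - s) * (1 - s) = 2 * (1 - s) := by
    have : (1 - s) * (1 - s) = 1 - 2 * s + s * s := by noncomm_ring
    rw [this, hss]
    noncomm_ring
  have h5 : ((1 - a) * (1 - b)) * ((1 - a) * (1 - b)) = (1 - a) * (1 - b) := by
    have h6 : (1 - b) * (1 - a) = (1 - a) * (1 - b) := by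
      have : (1 - b) * (1 - a) = 1 - a - b + b * a := by noncomm_ring
      rw [this, hba]
      noncomm_ring
    have h7 : (1 - a) * (1 - a) = 1 - a := by
      have : (1 - a) * (1 - a) = 1 - 2 * a + a * a := by noncomm_ring
      rw [this, haa]
      noncomm_ring
    have h8 : (1 - b) * (1 - b) = 1 - b := by
      have : (1 - b) * (1 - b) = 1 - 2 * b + b * b := by noncomm_ring
      rw [this, hbb]
      noncomm_ring
    calc ((1 - a) * (1 - b)) * ((1 - a) * (1 - b))
        = (1 - a) * ((1 - b) * (1 - a)) * (1 - b) := by noncomm_ring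
      _ = ((1 - a) * (1 - a)) * ((1 - b) * (1 - b)) := by rw [h6]; noncomm_ring
      _ = _ := by rw [h7, h8]
  rw [e]
  calc (1 - s) * ((1 - a) * (1 - b)) * ((1 - s) * ((1 - a) * (1 - b)))
      = (1 - s) * (((1 - a) * (1 - b)) * (1 - s)) * ((1 - a) * (1 - b)) := by noncomm_ring
    _ = (1 - s) * (1 - s) * (((1 - a) * (1 - b)) * ((1 - a) * (1 - b))) := by
        rw [h1]; noncomm_ring
    _ = _ := by rw [h4, h5]; noncomm_ring

theorem plmap_smul {X Y : V} (f : X ⟶ Y) (c : ℚ) (a : A.R Y) : pl A f (c • a) = c • pl A f a := by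
  rw [Algebra.smul_def, Algebra.smul_def, pl_mul]
  congr 1
  exact (A.pull f).map_rat_algebraMap c

theorem na_na {Z : V} (a : A.R (dp (dp S S) Z)) : na S o (na S o a) = (2 : ℚ) • na S o a := by
  let P : (dp S S ⟶ dp S S) → Module.End ℚ (A.R (dp (dp S S) Z)) := fun f =>
    { toFun := fun x => pl A (mp f (𝟙 Z)) x
      map_add' := fun x y => pl_add _ x y
      map_smul' := fun c x => plmap_smul _ c x }
  have hP : ∀ f g, P (f ≫ g) = P f * P g := fun f g => LinearMap.ext fun x => by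
    have h := Chow.pull_comp (A := A) (mp f (𝟙 Z)) (mp g (𝟙 Z)) x
    rw [mp_mp, Category.comp_id] at h
    exact h
  have hP1 : P (𝟙 _) = 1 := LinearMap.ext fun x => pl_id_mp x
  have h := ring_aux' (P (o1 S o)) (P (o2 S o)) (P (sw S))
    (by rw [← hP, o1_o1]) (by rw [← hP, o2_o2]) (by rw [← hP, ← hP, o1_o2])
    (by rw [← hP, sw_sw, hP1]) (by rw [← hP, ← hP, sw_o2]) (by rw [← hP, ← hP, sw_o1])
    (by
      rw [← hP, ← hP]
      congr 1
      apply dp_ext <;> simp [sw, o1, o2, comp_const])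
  have h2 := LinearMap.congr_fun h a
  rw [← hP, ← hP, sw_o1, sw_o2] at h2
  have h3 : ∀ x, (1 - P (o1 S o) - P (o2 S o) - P (sw S) + P (o1 S o ≫ sw S)
      + P (o2 S o ≫ sw S)) x = na S o x := fun x => rfl
  rw [Module.End.mul_apply, Module.End.mul_apply, h3, h3] at h2
  rw [h2, two_smul, Module.End.ofNat_apply, two_smul]

/-- Antisymmetrisations of numerically trivial classes of codimension two are zero. -/
theorem na_zero' [Chow2 A] (hF : Facts G J.toJacobians) (hS : Supported S o G) (hd : G.dim S = 2)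
    (hR : Regular A S o) {Z : V} {a : A.R (dp (dp S S) Z)} (ha : a ∈ G.cod _ 2)
    (hn : NumTrivial A a) : na S o a = 0 := by
  have h3 : Ker J.toJacobians (na S o (na S o a)) := hF.anti o Z hd hR _ (na_cod ha) (na_hom hF hS ha hn)
  have h4 := na_ker hF hS (na_cod (na_cod ha)) h3
  rw [na_na, na_na, smul_smul] at h4
  rcases smul_eq_zero.mp h4 with h5 | h5
  · norm_num at h5
  · exact h5

/-- The restriction to `o × S × Z`. -/
noncomputable def res1 (S : V) (o : H2.OC.star V ⟶ S) {Z : V} (a : A.R (dp (dp S S) Z)) :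
    A.R (dp S Z) := pl A (mp (lft (const S o) (𝟙 S)) (𝟙 Z)) a

/-- The restriction to `S × o × Z`. -/
noncomputable def res2 (S : V) (o : H2.OC.star V ⟶ S) {Z : V} (a : A.R (dp (dp S S) Z)) :
    A.R (dp S Z) := pl A (mp (lft (𝟙 S) (const S o)) (𝟙 Z)) a

theorem na_formula {Z : V} (a : A.R (dp (dp S S) Z)) :
    a - pl A (mp (sw S) (𝟙 Z)) a = pl A (mp (p1 S S) (𝟙 Z)) (res2 S o a - res1 S o a)
      - pl A (mp (p2 S S) (𝟙 Z)) (res2 S o a - res1 S o a) + na S o a := by
  have e1 : mp (o1 S o) (𝟙 Z) = mp (p2 S S) (𝟙 Z) ≫ mp (lft (const S o) (𝟙 S)) (𝟙 Z) := by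
    rw [mp_mp, Category.comp_id]
    congr 1
    apply dp_ext <;> simp [o1, comp_const]
  have e2 : mp (o2 S o) (𝟙 Z) = mp (p1 S S) (𝟙 Z) ≫ mp (lft (𝟙 S) (const S o)) (𝟙 Z) := by
    rw [mp_mp, Category.comp_id]
    congr 1
    apply dp_ext <;> simp [o2, comp_const]
  have e3 : mp (o1 S o ≫ sw S) (𝟙 Z) = mp (p2 S S) (𝟙 Z) ≫ mp (lft (𝟙 S) (const S o)) (𝟙 Z) := by
    rw [mp_mp, Category.comp_id]
    congr 1
    apply dp_ext <;> simp [o1, sw, comp_const]
  have e4 : mp (o2 S o ≫ sw S) (𝟙 Z) = mp (p1 S S) (𝟙 Z) ≫ mp (lft (const S o) (𝟙 S)) (𝟙 Z) := by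
    rw [mp_mp, Category.comp_id]
    congr 1
    apply dp_ext <;> simp [o2, sw, comp_const]
  rw [na, e1, e2, e3, e4, Chow.pull_comp, Chow.pull_comp, Chow.pull_comp, Chow.pull_comp, pl_sub,
    pl_sub, res1, res2]
  abel

/-- Numerically trivial classes of codimension two on `S × S × Z` are symmetric, up to classes which
come from `S × Z`. -/
theorem symmetric [Chow2 A] (hF : Facts G J.toJacobians) (hS : Supported S o G) (hd : G.dim S = 2)
    (hR : Regular A S o) {Z : V} {a : A.R (dp (dp S S) Z)} (ha : a ∈ G.cod _ 2)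
    (hn : NumTrivial A a) :
    ∃ b : A.R (dp S Z), Cod G 2 b ∧ NumTrivial A b ∧ (Hom J.toJacobians a → Hom J.toJacobians b) ∧ (Ker J.toJacobians a → Ker J.toJacobians b) ∧
      a - pl A (mp (sw S) (𝟙 Z)) a = pl A (mp (p1 S S) (𝟙 Z)) b - pl A (mp (p2 S S) (𝟙 Z)) b := by
  refine ⟨res2 S o a - res1 S o a, Submodule.sub_mem _ (G.pull _ ha) (G.pull _ ha), ?_, ?_, ?_, ?_⟩
  · intro c
    rw [sub_mul, map_sub, res1, res2, num_pull _ hn c, num_pull _ hn c, sub_zero]
  · intro h
    exact (h.pull _).sub (h.pull _)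
  · intro h
    exact (h.pull _).sub (h.pull _)
  · rw [na_formula (o := o), na_zero' hF hS hd hR ha hn, add_zero]

end Pool.Agent.H8.AJ
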